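import Mathlib
import Pool.Agent.R279.LSum.Defs
import Pool.Agent.R279.LSum.Proof

set_option autoImplicit false

open MeasureTheory Set

/-!
# MP_ec556a_an: `L₁ + L_∞` on `(0, ∞)` is not isomorphic to a dual space
-/

namespace Pool.Agent.Results.MP_ec556a_an.NotDual

universe v

/-- For every real normed space `Z` there is no linear homeomorphism between the space
`L₁(0,∞) + L_∞(0,∞)` (classes of functions `x = u + v`, normed by `inf (‖u‖_1 + ‖v‖_∞)`) and the dual
of `Z`. -/
theorem result (Z : Type v) [NormedAddCommGroup Z] [NormedSpace ℝ Z] :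
    IsEmpty (Pool.Agent.R279.LSum.Space (volume.restrict (Ioi (0:ℝ))) ≃L[ℝ] StrongDual ℝ Z) := by
  have h0 : Fact ((1 : ENNReal) ≠ ⊤) := ⟨ENNReal.one_ne_top⟩
  have h1 : (volume.restrict (Ioi (0:ℝ))) (Ioc (0:ℝ) 1) = 1 := by
    rw [Measure.restrict_apply measurableSet_Ioc, inter_eq_left.mpr Ioc_subset_Ioi_self, Real.volume_Ioc]
    simp
  exact Pool.Agent.R279.LSum.not_dual (Ioc 0 1) measurableSet_Ioc (by rw [h1]; exact ENNReal.one_ne_top)
    (by rw [h1]; exact one_ne_zero) (Pool.Agent.R279.LSum.split_real _) Z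

end Pool.Agent.Results.MP_ec556a_an.NotDual
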